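import Pool.Agent.Helper46.RS.CERTS

/-! Row BNDS (helper46). -/

set_option autoImplicit false

namespace Pool.Helper17.RS

namespace S46

theorem MM_le : (11 : ℤ) ≤ MM := by
  unfold MM
  have h := Nat.self_le_factorial 1000
  have h2 : 11 ≤ Nat.factorial 1000 := le_trans (by norm_num) h
  exact_mod_cast h2

theorem cong_yy (b : Fin 3 → ℤ) (t : Fin 3 → ℕ) : Cong b (yy b t) := by
  intro i
  exact ⟨(t i : ℤ), by unfold yy; ring⟩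

theorem FA_bd {a b c Z : ℤ} (ha : 0 ≤ a) (ha' : a ≤ Z) (hb : 0 ≤ b) (hb' : b ≤ Z) (hc : 0 ≤ c)
    (hc' : c ≤ Z) : |FA a b c| ≤ 1623 * Z ^ 4 := by
  have hZ : 0 ≤ Z := ha.trans ha'
  have p4 : ∀ x : ℤ, 0 ≤ x → x ≤ Z → 0 ≤ x ^ 4 ∧ x ^ 4 ≤ Z ^ 4 := fun x h h' =>
    ⟨pow_nonneg h 4, pow_le_pow_left₀ h h' 4⟩
  have p2 : ∀ x : ℤ, 0 ≤ x → x ≤ Z → 0 ≤ x ^ 2 ∧ x ^ 2 ≤ Z ^ 2 := fun x h h' =>
    ⟨pow_nonneg h 2, pow_le_pow_left₀ h h' 2⟩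
  have p22 : ∀ x y : ℤ, 0 ≤ x → x ≤ Z → 0 ≤ y → y ≤ Z → 0 ≤ x ^ 2 * y ^ 2 ∧
      x ^ 2 * y ^ 2 ≤ Z ^ 4 := by
    intro x y hx hx' hy hy'
    refine ⟨mul_nonneg (p2 x hx hx').1 (p2 y hy hy').1, ?_⟩
    have h := mul_le_mul (p2 x hx hx').2 (p2 y hy hy').2 (p2 y hy hy').1 (pow_nonneg hZ 2)
    have e : Z ^ 2 * Z ^ 2 = Z ^ 4 := by ring
    rwa [e] at h
  have a4 := p4 a ha ha'
  have b4 := p4 b hb hb'
  have c4 := p4 c hc hc'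
  have ab := p22 a b ha ha' hb hb'
  have ac := p22 a c ha ha' hc hc'
  have bc := p22 b c hb hb' hc hc'
  have hZ4 : 0 ≤ Z ^ 4 := pow_nonneg hZ 4
  unfold FA
  refine abs_le.2 ⟨?_, ?_⟩ <;> linarith

theorem FB_bd {a b c Z : ℤ} (ha : 0 ≤ a) (ha' : a ≤ Z) (hb : 0 ≤ b) (hb' : b ≤ Z) (hc : 0 ≤ c)
    (hc' : c ≤ Z) : |FB a b c| ≤ 73746 * Z ^ 6 := by
  have hZ : 0 ≤ Z := ha.trans ha'
  have p : ∀ (n : ℕ) (x : ℤ), 0 ≤ x → x ≤ Z → 0 ≤ x ^ n ∧ x ^ n ≤ Z ^ n := fun n x h h' =>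
    ⟨pow_nonneg h n, pow_le_pow_left₀ h h' n⟩
  have p42 : ∀ x y : ℤ, 0 ≤ x → x ≤ Z → 0 ≤ y → y ≤ Z → 0 ≤ x ^ 4 * y ^ 2 ∧
      x ^ 4 * y ^ 2 ≤ Z ^ 6 := by
    intro x y hx hx' hy hy'
    refine ⟨mul_nonneg (p 4 x hx hx').1 (p 2 y hy hy').1, ?_⟩
    have h := mul_le_mul (p 4 x hx hx').2 (p 2 y hy hy').2 (p 2 y hy hy').1 (pow_nonneg hZ 4)
    have e : Z ^ 4 * Z ^ 2 = Z ^ 6 := by ring
    rwa [e] at h
  have a6 := p 6 a ha ha'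
  have b6 := p 6 b hb hb'
  have c6 := p 6 c hc hc'
  have h1 := p42 a b ha ha' hb hb'
  have h2 := p42 a c ha ha' hc hc'
  have h3 := p42 b a hb hb' ha ha'
  have h4 := p42 b c hb hb' hc hc'
  have h5 := p42 c a hc hc' ha ha'
  have h6 := p42 c b hc hc' hb hb'
  have h7 : 0 ≤ a ^ 2 * b ^ 2 * c ^ 2 ∧ a ^ 2 * b ^ 2 * c ^ 2 ≤ Z ^ 6 := by
    refine ⟨by positivity, ?_⟩
    have g1 := mul_le_mul (p 2 a ha ha').2 (p 2 b hb hb').2 (p 2 b hb hb').1 (pow_nonneg hZ 2)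
    have g2 := mul_le_mul g1 (p 2 c hc hc').2 (p 2 c hc hc').1
      (mul_nonneg (pow_nonneg hZ 2) (pow_nonneg hZ 2))
    have e : Z ^ 2 * Z ^ 2 * Z ^ 2 = Z ^ 6 := by ring
    rwa [e] at g2
  have hZ6 : 0 ≤ Z ^ 6 := pow_nonneg hZ 6
  have e : FB a b c = 22678 * (a ^ 6 + b ^ 6 + c ^ 6) - 12291 * (a ^ 4 * b ^ 2 + a ^ 4 * c ^ 2 +
      b ^ 4 * a ^ 2 + b ^ 4 * c ^ 2 + c ^ 4 * a ^ 2 + c ^ 4 * b ^ 2) +
      2256 * (a ^ 2 * b ^ 2 * c ^ 2) := by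
    unfold FB
    ring
  rw [e]
  refine abs_le.2 ⟨?_, ?_⟩ <;> linarith

end S46

open S46 in
/-- row BNDS -/
theorem st_BNDS : ST_BNDS := by
  have hM := MM_le
  have hM1 : 1 ≤ MM := by linarith
  refine ⟨73746 * MM ^ 6, ?_, ?_⟩
  · have : 1 ≤ MM ^ 6 := one_le_pow₀ hM1
    linarith
  intro N hN t ht
  have hN' : (1 : ℤ) ≤ (N : ℤ) := by exact_mod_cast hN
  have htb : ∀ i, 0 ≤ (t i : ℤ) ∧ (t i : ℤ) ≤ (N : ℤ) - 1 := by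
    intro i
    unfold Box at ht
    rw [Fintype.mem_piFinset] at ht
    have h := Finset.mem_range.mp (ht i)
    omega
  set Z : ℤ := MM * N with hZ
  have hb : ∀ i, 0 < sb i ∧ sb i ≤ 11 := by
    intro i
    fin_cases i <;> decide
  have hy : ∀ i, 0 < yy sb t i ∧ yy sb t i ≤ Z := by
    intro i
    have h1 := htb i
    have h2 := hb i
    have h3 : 0 ≤ MM * (t i : ℤ) := mul_nonneg (by linarith) h1.1
    have h4 : MM * (t i : ℤ) ≤ MM * ((N : ℤ) - 1) := mul_le_mul_of_nonneg_left h1.2 (by linarith)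
    have h5 : MM * ((N : ℤ) - 1) = Z - MM := by rw [hZ]; ring
    unfold yy
    constructor <;> linarith
  obtain ⟨e1, e2, -, -⟩ := vals (cong_yy sb t)
  have hZ0 : 0 ≤ Z := (hy 0).1.le.trans (hy 0).2
  have hpw : ∀ (K : ℤ) (j : ℕ), 0 ≤ K → K ≤ 73746 → j ≤ 6 →
      K * Z ^ j ≤ 73746 * MM ^ 6 * (N : ℤ) ^ j := by
    intro K j hK0 hK hj
    rw [hZ, mul_pow, ← mul_assoc]
    refine mul_le_mul_of_nonneg_right ?_ (pow_nonneg (by linarith) j)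
    exact mul_le_mul hK (pow_le_pow_right₀ hM1 hj) (pow_nonneg (by linarith) j) (by norm_num)
  refine ⟨?_, ?_, ?_⟩
  · intro i
    refine ⟨(hy i).1, ?_⟩
    have h1 := hpw 1 1 (by norm_num) (by norm_num) (by norm_num)
    rw [pow_one, pow_one, one_mul] at h1
    exact (hy i).2.trans h1
  · have h1 := FA_bd (hy 0).1.le (hy 0).2 (hy 1).1.le (hy 1).2 (hy 2).1.le (hy 2).2
    have h2 := hpw 541 4 (by norm_num) (by norm_num) (by norm_num)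
    have h3 : |3 * sA (yy sb t)| ≤ 1623 * Z ^ 4 := by rw [e1, abs_neg]; exact h1
    rw [abs_mul] at h3
    have h4 : |(3 : ℤ)| = 3 := by norm_num
    rw [h4] at h3
    linarith
  · have h1 := FB_bd (hy 0).1.le (hy 0).2 (hy 1).1.le (hy 1).2 (hy 2).1.le (hy 2).2
    have h2 := hpw 73746 6 (by norm_num) (by norm_num) (by norm_num)
    have h3 : |27 * sB (yy sb t)| ≤ 73746 * Z ^ 6 := by rw [e2]; exact h1
    rw [abs_mul] at h3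
    have h4 : |(27 : ℤ)| = 27 := by norm_num
    rw [h4] at h3
    have h5 := abs_nonneg (sB (yy sb t))
    linarith

end Pool.Helper17.RS
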