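import Pool.Agent.Helper17.RS.Sheet

/-! Row CERTS (helper46), after Helper16/R5/CERT.lean. -/

set_option autoImplicit false

namespace Pool.Helper17.RS

namespace S46

open Pool.Agent.Helper97.RK (cur)

theorem cz {M : ℤ} (q : ℕ) (hq : (q : ℤ) ∣ M) {a b : ℤ} (h : a ≡ b [ZMOD M]) :
    (a : ZMod q) = (b : ZMod q) :=
  (ZMod.intCast_eq_intCast_iff a b q).2 (h.of_dvd hq)

/-- `1000! / 27` -/
def MC : ℤ := ((Nat.factorial 1000 / 27 : ℕ) : ℤ)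

theorem d27 : 27 ∣ Nat.factorial 9 := by decide

theorem d27' : 27 ∣ Nat.factorial 1000 :=
  d27.trans (Nat.factorial_dvd_factorial (by norm_num))

theorem MM_eq : MM = 27 * MC := by
  unfold MM MC
  have h3 : ∀ n : ℕ, 27 ∣ n → (n : ℤ) = 27 * ((n / 27 : ℕ) : ℤ) := by
    intro n hn
    omega
  exact h3 _ d27'

theorem dvd_MC {q : ℕ} (hq : q.Prime) (hq1 : q ≤ 1000) : (q : ℤ) ∣ MC := by
  have h : 27 * q ∣ Nat.factorial 1000 := by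
    by_cases h991 : q ≤ 991
    · have h1 : Nat.factorial 9 * Nat.factorial 991 ∣ Nat.factorial (9 + 991) :=
        Nat.factorial_mul_factorial_dvd_factorial_add 9 991
      exact (Nat.mul_dvd_mul d27 (Nat.dvd_factorial hq.pos h991)).trans h1
    · refine Nat.Coprime.mul_dvd_of_dvd_of_dvd ?_ d27' (Nat.dvd_factorial hq.pos hq1)
      have h3 : Nat.Coprime (3 ^ 3) q :=
        Nat.Coprime.pow_left 3 ((Nat.coprime_primes Nat.prime_three hq).2 (by omega))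
      exact h3
  unfold MC
  have h5 : q ∣ Nat.factorial 1000 / 27 := by
    obtain ⟨k, hk⟩ := h
    exact ⟨k, by rw [hk, mul_assoc, Nat.mul_div_cancel_left _ (by norm_num)]⟩
  exact_mod_cast h5

theorem div3 {P x : ℤ} (h : P ≡ 3 * x [ZMOD MM]) : 3 * (P / 3) = P ∧ P / 3 ≡ x [ZMOD MC] := by
  obtain ⟨k, hk⟩ := Int.modEq_iff_dvd.1 h.symm
  rw [MM_eq] at hk
  have e : P = 3 * (x + 9 * (MC * k)) := by linarith
  have e2 : P / 3 = x + 9 * (MC * k) := by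
    rw [e, Int.mul_ediv_cancel_left _ (by norm_num)]
  refine ⟨by rw [e2]; exact e.symm, ?_⟩
  rw [e2]
  exact (Int.modEq_iff_dvd.2 ⟨9 * k, by ring⟩).symm

theorem div27 {P x : ℤ} (h : P ≡ 27 * x [ZMOD MM]) :
    27 * (P / 27) = P ∧ P / 27 ≡ x [ZMOD MC] := by
  obtain ⟨k, hk⟩ := Int.modEq_iff_dvd.1 h.symm
  rw [MM_eq] at hk
  have e : P = 27 * (x + MC * k) := by linarith
  have e2 : P / 27 = x + MC * k := by
    rw [e, Int.mul_ediv_cancel_left _ (by norm_num)]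
  refine ⟨by rw [e2]; exact e.symm, ?_⟩
  rw [e2]
  exact (Int.modEq_iff_dvd.2 ⟨k, by ring⟩).symm

/-- three times the abscissas -/
def PP (a b c : ℤ) : Fin 7 → ℤ :=
  ![269 * a ^ 2 + 504 * a * c - 46 * b ^ 2 + 269 * c ^ 2,
    59 * a ^ 2 + 105 * a * b + 63 * a * c + 59 * b ^ 2 + 63 * b * c - 25 * c ^ 2,
    29 * a ^ 2 - 31 * b ^ 2 - 24 * b * c + 14 * c ^ 2,
    -31 * a ^ 2 - 24 * a * b + 14 * b ^ 2 + 29 * c ^ 2,
    17 * a ^ 2 + 17 * b ^ 2 - 46 * c ^ 2,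
    -1 * a ^ 2 - 27 * a * b + 45 * a * c + 35 * b ^ 2 - 27 * b * c - c ^ 2,
    -46 * a ^ 2 + 17 * b ^ 2 + 17 * c ^ 2]

/-- the ordinates -/
def QQ (a b c : ℤ) : Fin 7 → ℤ :=
  ![840 * a ^ 3 + 2394 * a ^ 2 * c - 210 * a * b ^ 2 + 2394 * a * c ^ 2 - 210 * b ^ 2 * c +
      840 * c ^ 3,
    70 * a ^ 3 + 245 * a ^ 2 * b + 147 * a ^ 2 * c + 245 * a * b ^ 2 + 252 * a * b * c -
      7 * a * c ^ 2 + 70 * b ^ 3 + 147 * b ^ 2 * c - 7 * b * c ^ 2 - 42 * c ^ 3,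
    10 * a ^ 2 * b - 40 * a ^ 2 * c - 40 * b ^ 3 + 14 * b ^ 2 * c + 46 * b * c ^ 2 + 10 * c ^ 3,
    40 * a ^ 3 - 14 * a ^ 2 * b - 46 * a * b ^ 2 - 10 * a * c ^ 2 - 10 * b ^ 3 + 40 * b * c ^ 2,
    42 * a ^ 2 * c - 42 * b ^ 2 * c,
    30 * a ^ 3 + 27 * a ^ 2 * b - 45 * a ^ 2 * c - 57 * a * b ^ 2 + 72 * a * b * c -
      45 * a * c ^ 2 + 18 * b ^ 3 - 57 * b ^ 2 * c + 27 * b * c ^ 2 + 30 * c ^ 3,
    42 * a * b ^ 2 - 42 * a * c ^ 2]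

/-- the abscissas at `(4, 7, 11)` -/
def XX : Fin 7 → ℤ := ![18925, 3791, -403, 1009, -1487, 241, 718]

theorem ident (a b c : ℤ) (i : Fin 7) :
    27 * QQ a b c i ^ 2 = PP a b c i ^ 3 - 3 * FA a b c * PP a b c i + FB a b c := by
  fin_cases i
  · show 27 * (840 * a ^ 3 + 2394 * a ^ 2 * c - 210 * a * b ^ 2 + 2394 * a * c ^ 2 -
      210 * b ^ 2 * c + 840 * c ^ 3) ^ 2 = (269 * a ^ 2 + 504 * a * c - 46 * b ^ 2 +
      269 * c ^ 2) ^ 3 - 3 * FA a b c * (269 * a ^ 2 + 504 * a * c - 46 * b ^ 2 + 269 * c ^ 2) +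
      FB a b c
    unfold FA FB
    ring
  · show 27 * (70 * a ^ 3 + 245 * a ^ 2 * b + 147 * a ^ 2 * c + 245 * a * b ^ 2 +
      252 * a * b * c - 7 * a * c ^ 2 + 70 * b ^ 3 + 147 * b ^ 2 * c - 7 * b * c ^ 2 -
      42 * c ^ 3) ^ 2 = (59 * a ^ 2 + 105 * a * b + 63 * a * c + 59 * b ^ 2 + 63 * b * c -
      25 * c ^ 2) ^ 3 - 3 * FA a b c * (59 * a ^ 2 + 105 * a * b + 63 * a * c + 59 * b ^ 2 +
      63 * b * c - 25 * c ^ 2) + FB a b c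
    unfold FA FB
    ring
  · show 27 * (10 * a ^ 2 * b - 40 * a ^ 2 * c - 40 * b ^ 3 + 14 * b ^ 2 * c +
      46 * b * c ^ 2 + 10 * c ^ 3) ^ 2 = (29 * a ^ 2 - 31 * b ^ 2 - 24 * b * c +
      14 * c ^ 2) ^ 3 - 3 * FA a b c * (29 * a ^ 2 - 31 * b ^ 2 - 24 * b * c + 14 * c ^ 2) +
      FB a b c
    unfold FA FB
    ring
  · show 27 * (40 * a ^ 3 - 14 * a ^ 2 * b - 46 * a * b ^ 2 - 10 * a * c ^ 2 - 10 * b ^ 3 +
      40 * b * c ^ 2) ^ 2 = (-31 * a ^ 2 - 24 * a * b + 14 * b ^ 2 + 29 * c ^ 2) ^ 3 -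
      3 * FA a b c * (-31 * a ^ 2 - 24 * a * b + 14 * b ^ 2 + 29 * c ^ 2) + FB a b c
    unfold FA FB
    ring
  · show 27 * (42 * a ^ 2 * c - 42 * b ^ 2 * c) ^ 2 = (17 * a ^ 2 + 17 * b ^ 2 -
      46 * c ^ 2) ^ 3 - 3 * FA a b c * (17 * a ^ 2 + 17 * b ^ 2 - 46 * c ^ 2) + FB a b c
    unfold FA FB
    ring
  · show 27 * (30 * a ^ 3 + 27 * a ^ 2 * b - 45 * a ^ 2 * c - 57 * a * b ^ 2 +
      72 * a * b * c - 45 * a * c ^ 2 + 18 * b ^ 3 - 57 * b ^ 2 * c + 27 * b * c ^ 2 +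
      30 * c ^ 3) ^ 2 = (-1 * a ^ 2 - 27 * a * b + 45 * a * c + 35 * b ^ 2 - 27 * b * c -
      c ^ 2) ^ 3 - 3 * FA a b c * (-1 * a ^ 2 - 27 * a * b + 45 * a * c + 35 * b ^ 2 -
      27 * b * c - c ^ 2) + FB a b c
    unfold FA FB
    ring
  · show 27 * (42 * a * b ^ 2 - 42 * a * c ^ 2) ^ 2 = (-46 * a ^ 2 + 17 * b ^ 2 +
      17 * c ^ 2) ^ 3 - 3 * FA a b c * (-46 * a ^ 2 + 17 * b ^ 2 + 17 * c ^ 2) + FB a b c
    unfold FA FB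
    ring

theorem onc {F A B P X Y G : ℤ} (hX : 3 * X = P) (hA : 3 * A = -F) (hB : 27 * B = G)
    (h : 27 * Y ^ 2 = P ^ 3 - 3 * F * P + G) : Y ^ 2 = X ^ 3 + A * X + B := by
  have h1 : 27 * Y ^ 2 = 27 * (X ^ 3 + A * X + B) := by
    rw [h, ← hX, ← hB]
    linear_combination (-9 * X) * hA
  linarith

theorem FA_mod {M a b c : ℤ} (ha : a ≡ 4 [ZMOD M]) (hb : b ≡ 7 [ZMOD M])
    (hc : c ≡ 11 [ZMOD M]) : FA a b c ≡ FA 4 7 11 [ZMOD M] := by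
  unfold FA
  exact ((Int.ModEq.refl 541).mul (((ha.pow 4).add (hb.pow 4)).add (hc.pow 4))).sub
    ((Int.ModEq.refl 493).mul ((((ha.pow 2).mul (hb.pow 2)).add ((ha.pow 2).mul (hc.pow 2))).add
      ((hb.pow 2).mul (hc.pow 2))))

theorem FB_mod {M a b c : ℤ} (ha : a ≡ 4 [ZMOD M]) (hb : b ≡ 7 [ZMOD M])
    (hc : c ≡ 11 [ZMOD M]) : FB a b c ≡ FB 4 7 11 [ZMOD M] := by
  unfold FB
  exact (((Int.ModEq.refl 22678).mul (((ha.pow 6).add (hb.pow 6)).add (hc.pow 6))).sub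
    ((Int.ModEq.refl 12291).mul (((((((ha.pow 4).mul (hb.pow 2)).add
      ((ha.pow 4).mul (hc.pow 2))).add ((hb.pow 4).mul (ha.pow 2))).add
      ((hb.pow 4).mul (hc.pow 2))).add ((hc.pow 4).mul (ha.pow 2))).add
      ((hc.pow 4).mul (hb.pow 2))))).add
    ((((Int.ModEq.refl 2256).mul (ha.pow 2)).mul (hb.pow 2)).mul (hc.pow 2))

theorem PP_mod {M a b c : ℤ} (ha : a ≡ 4 [ZMOD M]) (hb : b ≡ 7 [ZMOD M])
    (hc : c ≡ 11 [ZMOD M]) (i : Fin 7) : PP a b c i ≡ PP 4 7 11 i [ZMOD M] := by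
  have r : ∀ x : ℤ, x ≡ x [ZMOD M] := Int.ModEq.refl
  fin_cases i
  · exact ((((r 269).mul (ha.pow 2)).add (((r 504).mul ha).mul hc)).sub
      ((r 46).mul (hb.pow 2))).add ((r 269).mul (hc.pow 2))
  · exact ((((((r 59).mul (ha.pow 2)).add (((r 105).mul ha).mul hb)).add
      (((r 63).mul ha).mul hc)).add ((r 59).mul (hb.pow 2))).add
      (((r 63).mul hb).mul hc)).sub ((r 25).mul (hc.pow 2))
  · exact ((((r 29).mul (ha.pow 2)).sub ((r 31).mul (hb.pow 2))).sub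
      (((r 24).mul hb).mul hc)).add ((r 14).mul (hc.pow 2))
  · exact ((((r (-31)).mul (ha.pow 2)).sub (((r 24).mul ha).mul hb)).add
      ((r 14).mul (hb.pow 2))).add ((r 29).mul (hc.pow 2))
  · exact (((r 17).mul (ha.pow 2)).add ((r 17).mul (hb.pow 2))).sub ((r 46).mul (hc.pow 2))
  · exact ((((((r (-1)).mul (ha.pow 2)).sub (((r 27).mul ha).mul hb)).add
      (((r 45).mul ha).mul hc)).add ((r 35).mul (hb.pow 2))).sub
      (((r 27).mul hb).mul hc)).sub (hc.pow 2)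
  · exact (((r (-46)).mul (ha.pow 2)).add ((r 17).mul (hb.pow 2))).add
      ((r 17).mul (hc.pow 2))

theorem PP_val (i : Fin 7) : PP 4 7 11 i = 3 * XX i := by
  revert i
  decide

theorem FA_val : FA (4 : ℤ) 7 11 = 5094261 := by
  unfold FA
  norm_num

theorem FB_val : FB (4 : ℤ) 7 11 = 27 * 995393450 := by
  unfold FB
  norm_num

theorem dec7 : ∀ S : Finset (Fin 7), S.Nonempty →
    ¬ IsSquare (∏ i ∈ S, ((XX i - 6 : ℤ) : ZMod 7)) ∨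
    ¬ IsSquare (∏ i ∈ S, ((XX i - 6 : ℤ) : ZMod 11)) ∨
    ¬ IsSquare (∏ i ∈ S, ((XX i - 10 : ℤ) : ZMod 17)) ∨
    ¬ IsSquare (∏ i ∈ S, ((XX i - 11 : ℤ) : ZMod 17)) ∨
    ¬ IsSquare (∏ i ∈ S, ((XX i - 11 : ℤ) : ZMod 19)) ∨
    ¬ IsSquare (∏ i ∈ S, ((XX i - 18 : ℤ) : ZMod 23)) ∨
    ¬ IsSquare (∏ i ∈ S, ((XX i - 11 : ℤ) : ZMod 29)) := by
  decide +kernel

theorem noroot (t : ZMod 13) :
    t ^ 3 + ((-1698087 : ℤ) : ZMod 13) * t + ((995393450 : ℤ) : ZMod 13) ≠ 0 := by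
  revert t
  decide

theorem step (n : ℕ) (A B : ℤ) (x b : Fin n → ℤ) (hA : A ≡ -1698087 [ZMOD MC])
    (hB : B ≡ 995393450 [ZMOD MC]) (hx : ∀ i, x i ≡ b i [ZMOD MC]) (S : Finset (Fin n)) (q : ℕ)
    (e : ℤ) (hqp : q.Prime) (hq : (q : ℤ) ∣ MC)
    (h1 : ((e ^ 3 + (-1698087) * e + 995393450 : ℤ) : ZMod q) = 0)
    (h2 : ((3 * e ^ 2 + (-1698087) : ℤ) : ZMod q) ≠ 0)
    (h3 : ¬ IsSquare (∏ i ∈ S, ((b i - e : ℤ) : ZMod q))) :
    ∃ (q : ℕ) (e : ℤ), q.Prime ∧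
      ((e ^ 3 + A * e + B : ℤ) : ZMod q) = 0 ∧ ((3 * e ^ 2 + A : ℤ) : ZMod q) ≠ 0 ∧
      ¬ IsSquare (∏ i ∈ S, ((x i - e : ℤ) : ZMod q)) := by
  refine ⟨q, e, hqp, ?_, ?_, ?_⟩
  · rw [← h1]
    exact cz q hq (((Int.ModEq.refl (e ^ 3)).add (hA.mul (Int.ModEq.refl e))).add hB)
  · intro h
    apply h2
    rw [← h]
    exact cz q hq (((Int.ModEq.refl (3 * e ^ 2)).add hA).symm)
  · intro h
    apply h3
    refine (congrArg IsSquare ?_).mp h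
    apply Finset.prod_congr rfl
    intro i _
    exact cz q hq ((hx i).sub (Int.ModEq.refl e))

theorem stepAll (n : ℕ) (A B : ℤ) (x b : Fin n → ℤ) (hA : A ≡ -1698087 [ZMOD MC])
    (hB : B ≡ 995393450 [ZMOD MC]) (hx : ∀ i, x i ≡ b i [ZMOD MC]) (S : Finset (Fin n))
    (h : ¬ IsSquare (∏ i ∈ S, ((b i - 6 : ℤ) : ZMod 7)) ∨
    ¬ IsSquare (∏ i ∈ S, ((b i - 6 : ℤ) : ZMod 11)) ∨
    ¬ IsSquare (∏ i ∈ S, ((b i - 10 : ℤ) : ZMod 17)) ∨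
    ¬ IsSquare (∏ i ∈ S, ((b i - 11 : ℤ) : ZMod 17)) ∨
    ¬ IsSquare (∏ i ∈ S, ((b i - 11 : ℤ) : ZMod 19)) ∨
    ¬ IsSquare (∏ i ∈ S, ((b i - 18 : ℤ) : ZMod 23)) ∨
    ¬ IsSquare (∏ i ∈ S, ((b i - 11 : ℤ) : ZMod 29))) :
    ∃ (q : ℕ) (e : ℤ), q.Prime ∧
      ((e ^ 3 + A * e + B : ℤ) : ZMod q) = 0 ∧ ((3 * e ^ 2 + A : ℤ) : ZMod q) ≠ 0 ∧
      ¬ IsSquare (∏ i ∈ S, ((x i - e : ℤ) : ZMod q)) := by
  rcases h with h | h | h | h | h | h | h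
  · exact step n A B x b hA hB hx S 7 6 (by norm_num) (dvd_MC (by norm_num) (by norm_num))
      (by decide) (by decide) h
  · exact step n A B x b hA hB hx S 11 6 (by norm_num) (dvd_MC (by norm_num) (by norm_num))
      (by decide) (by decide) h
  · exact step n A B x b hA hB hx S 17 10 (by norm_num) (dvd_MC (by norm_num) (by norm_num))
      (by decide) (by decide) h
  · exact step n A B x b hA hB hx S 17 11 (by norm_num) (dvd_MC (by norm_num) (by norm_num))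
      (by decide) (by decide) h
  · exact step n A B x b hA hB hx S 19 11 (by norm_num) (dvd_MC (by norm_num) (by norm_num))
      (by decide) (by decide) h
  · exact step n A B x b hA hB hx S 23 18 (by norm_num) (dvd_MC (by norm_num) (by norm_num))
      (by decide) (by decide) h
  · exact step n A B x b hA hB hx S 29 11 (by norm_num) (dvd_MC (by norm_num) (by norm_num))
      (by decide) (by decide) h

theorem cong0 {y : Fin 3 → ℤ} (h : Cong sb y) :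
    y 0 ≡ 4 [ZMOD MM] ∧ y 1 ≡ 7 [ZMOD MM] ∧ y 2 ≡ 11 [ZMOD MM] :=
  ⟨(Int.modEq_iff_dvd.2 (h 0)).symm, (Int.modEq_iff_dvd.2 (h 1)).symm,
    (Int.modEq_iff_dvd.2 (h 2)).symm⟩

/-- the first two parts, with the residues -/
theorem vals {y : Fin 3 → ℤ} (h : Cong sb y) :
    3 * sA y = -(FA (y 0) (y 1) (y 2)) ∧ 27 * sB y = FB (y 0) (y 1) (y 2) ∧
    sA y ≡ -1698087 [ZMOD MC] ∧ sB y ≡ 995393450 [ZMOD MC] := by
  obtain ⟨h0, h1, h2⟩ := cong0 h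
  have hA : -(FA (y 0) (y 1) (y 2)) ≡ 3 * (-1698087) [ZMOD MM] := by
    have h3 := (FA_mod h0 h1 h2).neg
    rw [FA_val] at h3
    exact h3
  have hB : FB (y 0) (y 1) (y 2) ≡ 27 * 995393450 [ZMOD MM] := by
    have h3 := FB_mod h0 h1 h2
    rw [FB_val] at h3
    exact h3
  obtain ⟨a1, a2⟩ := div3 hA
  obtain ⟨b1, b2⟩ := div27 hB
  exact ⟨a1, b1, a2, b2⟩

end S46

open S46 in
/-- row CERTS -/
theorem st_CERTS (hR : Pool.Agent.Helper97.RK.ST_RANK) : ST_CERTS := by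
  intro y hy
  obtain ⟨eA, eB, hA, hB⟩ := vals hy
  obtain ⟨h0, h1, h2⟩ := cong0 hy
  have hd13 : ((13 : ℕ) : ℤ) ∣ MC := dvd_MC (by norm_num) (by norm_num)
  have hdisc : 4 * sA y ^ 3 + 27 * sB y ^ 2 ≠ 0 := by
    intro h
    have h3 : 4 * sA y ^ 3 + 27 * sB y ^ 2 ≡
        4 * (-1698087) ^ 3 + 27 * 995393450 ^ 2 [ZMOD 13] :=
      (((Int.ModEq.refl 4).mul ((hA.of_dvd hd13).pow 3)).add
        ((Int.ModEq.refl 27).mul ((hB.of_dvd hd13).pow 2)))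
    rw [h] at h3
    revert h3
    decide
  have h13 : ∀ t : ZMod 13, t ^ 3 + (sA y : ZMod 13) * t + (sB y : ZMod 13) ≠ 0 := by
    intro t
    rw [cz 13 hd13 hA, cz 13 hd13 hB]
    exact noroot t
  refine ⟨eA, eB, hdisc, ?_, ?_⟩
  · intro q hq hq1 hdv
    obtain ⟨ha, hb⟩ := hdv
    have hqM : (q : ℤ) ∣ MC := dvd_MC hq hq1
    have ha' : (q : ℤ) ∣ -1698087 := (hA.of_dvd hqM).dvd_iff.1 ha
    have hb' : (q : ℤ) ∣ 995393450 := (hB.of_dvd hqM).dvd_iff.1 hb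
    have h1' : (q : ℤ) ∣ 1 := by
      have e2 : IsCoprime (-1698087 : ℤ) 995393450 := by
        rw [Int.isCoprime_iff_gcd_eq_one]
        norm_num
      obtain ⟨a, b, hab⟩ := e2
      rw [← hab]
      exact dvd_add (ha'.mul_left a) (hb'.mul_left b)
    have h2' : q ∣ 1 := by exact_mod_cast h1'
    exact hq.one_lt.ne' (Nat.dvd_one.1 h2')
  · have hP : ∀ i, 3 * (PP (y 0) (y 1) (y 2) i / 3) = PP (y 0) (y 1) (y 2) i ∧
        PP (y 0) (y 1) (y 2) i / 3 ≡ XX i [ZMOD MC] := by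
      intro i
      refine div3 ?_
      rw [← PP_val]
      exact PP_mod h0 h1 h2 i
    refine hR 7 _ _ (fun i => PP (y 0) (y 1) (y 2) i / 3) (QQ (y 0) (y 1) (y 2)) ?_ hdisc 13 h13
      ?_
    · intro i
      exact onc (hP i).1 eA eB (ident _ _ _ i)
    · intro S hS
      exact stepAll 7 _ _ _ XX hA hB (fun i => (hP i).2) S (dec7 S hS)

end Pool.Helper17.RS
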