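import Pool.Agent.Helper46.RS.BNDS
import Pool.Agent.Helper28.RS.SVK

/-! Row SVS (helper46): the number of members of the family S with `q ∣ A`, `q ∣ B`.
The counting follows helper28's row SVK. -/

set_option autoImplicit false

namespace Pool.Helper17.RS

namespace S46

open Polynomial

section Field

variable {F : Type*} [Field F]

/-- the sextic for `U` -/
noncomputable def P6 (W : F) : F[X] :=
  C 1496906427515625 * X ^ 6 + C (-(6724543634313750 * W)) * X ^ 5 +
    C (14418810138557223 * W ^ 2) * X ^ 4 + C (-(17813906290108404 * W ^ 3)) * X ^ 3 +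
    C (14418810138557223 * W ^ 4) * X ^ 2 + C (-(6724543634313750 * W ^ 5)) * X +
    C (1496906427515625 * W ^ 6)

theorem P6_deg (W : F) : (P6 W).natDegree ≤ 6 := by
  unfold P6
  compute_degree

theorem P6_coeff (W : F) : (P6 W).coeff 6 = 1496906427515625 := by
  unfold P6
  compute_degree!

theorem P6_ne (h0 : (1496906427515625 : F) ≠ 0) (W : F) : P6 W ≠ 0 := by
  intro h
  have h1 := P6_coeff W
  rw [h, coeff_zero] at h1
  exact h0 h1.symm

variable [DecidableEq F]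

theorem P6_card (W : F) : (P6 W).roots.toFinset.card ≤ 6 :=
  (Multiset.toFinset_card_le _).trans ((card_roots' _).trans (P6_deg W))

/-- the solutions of `541 x ^ 2 + k x + m = 0` -/
noncomputable def s2 (k m : F) : Finset F :=
  (C 541 * X ^ 2 + C k * X + C m : F[X]).roots.toFinset

theorem s2_deg (k m : F) : (C 541 * X ^ 2 + C k * X + C m : F[X]).natDegree ≤ 2 := by
  compute_degree

theorem s2_ne (h : (541 : F) ≠ 0) (k m : F) : (C 541 * X ^ 2 + C k * X + C m : F[X]) ≠ 0 := by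
  intro h0
  have h1 : (C 541 * X ^ 2 + C k * X + C m : F[X]).coeff 2 = 541 := by
    compute_degree!
  rw [h0, coeff_zero] at h1
  exact h h1.symm

theorem s2_card (k m : F) : (s2 k m).card ≤ 2 :=
  (Multiset.toFinset_card_le _).trans ((card_roots' _).trans (s2_deg k m))

theorem mem_s2 (h5 : (541 : F) ≠ 0) (k m x : F) (h : 541 * x ^ 2 + k * x + m = 0) :
    x ∈ s2 k m := by
  unfold s2
  rw [Multiset.mem_toFinset, mem_roots (s2_ne h5 k m)]
  simpa [IsRoot] using h

/-- the classes of `a` -/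
noncomputable def Sa (c : F) : Finset F :=
  (P6 (c ^ 2)).roots.toFinset.biUnion fun x => s2 0 (-(541 * x))

theorem Sa_card (c : F) : (Sa c).card ≤ 12 := by
  refine (Finset.card_biUnion_le_card_mul _ _ 2 fun x _ => s2_card _ _).trans ?_
  have := P6_card (c ^ 2)
  omega

/-- the classes of `b` -/
noncomputable def Sb (c a : F) : Finset F :=
  (s2 (-(493 * (a ^ 2 + c ^ 2))) (541 * (a ^ 4 + c ^ 4) - 493 * a ^ 2 * c ^ 2)).biUnion
    fun x => s2 0 (-(541 * x))

theorem Sb_card (c a : F) : (Sb c a).card ≤ 4 := by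
  refine (Finset.card_biUnion_le_card_mul _ _ 2 fun x _ => s2_card _ _).trans ?_
  have := s2_card (-(493 * (a ^ 2 + c ^ 2))) (541 * (a ^ 4 + c ^ 4) - 493 * a ^ 2 * c ^ 2)
  omega

theorem elim {R : Type*} [CommRing R] (a b c : R) :
    (3884601382475 * a ^ 8 + 54054791200 * a ^ 6 * b ^ 2 - 9163980005664 * a ^ 6 * c ^ 2 -
      2880129811900 * a ^ 4 * b ^ 4 + 753761743904 * a ^ 4 * b ^ 2 * c ^ 2 +
      13962790678250 * a ^ 4 * c ^ 4 + 4023076202168 * a ^ 2 * b ^ 4 * c ^ 2 +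
      753761743904 * a ^ 2 * b ^ 2 * c ^ 4 - 9163980005664 * a ^ 2 * c ^ 6 -
      2880129811900 * b ^ 4 * c ^ 4 + 54054791200 * b ^ 2 * c ^ 6 + 3884601382475 * c ^ 8) *
      FA a b c +
    (-26662973825 * a ^ 6 + 68707568050 * a ^ 4 * b ^ 2 - 7912363567 * a ^ 4 * c ^ 2 -
      95973376196 * a ^ 2 * b ^ 2 * c ^ 2 - 7912363567 * a ^ 2 * c ^ 4 +
      68707568050 * b ^ 2 * c ^ 4 - 26662973825 * c ^ 6) * FB a b c =
    1496906427515625 * a ^ 12 - 6724543634313750 * a ^ 10 * c ^ 2 +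
      14418810138557223 * a ^ 8 * c ^ 4 - 17813906290108404 * a ^ 6 * c ^ 6 +
      14418810138557223 * a ^ 4 * c ^ 8 - 6724543634313750 * a ^ 2 * c ^ 10 +
      1496906427515625 * c ^ 12 := by
  unfold FA FB
  ring

theorem smain (h0 : (1496906427515625 : F) ≠ 0) (h5 : (541 : F) ≠ 0) (a b c : F)
    (hA : FA a b c = 0) (hB : FB a b c = 0) : a ∈ Sa c ∧ b ∈ Sb c a := by
  constructor
  · unfold Sa
    rw [Finset.mem_biUnion]
    refine ⟨a ^ 2, ?_, mem_s2 h5 _ _ _ (by ring)⟩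
    rw [Multiset.mem_toFinset, mem_roots (P6_ne h0 _)]
    show (P6 _).eval (a ^ 2) = 0
    unfold P6
    simp only [eval_add, eval_mul, eval_pow, eval_C, eval_X]
    have h := elim a b c
    rw [hA, hB, mul_zero, mul_zero, add_zero] at h
    linear_combination -h
  · unfold Sb
    rw [Finset.mem_biUnion]
    refine ⟨b ^ 2, ?_, mem_s2 h5 _ _ _ (by ring)⟩
    apply mem_s2 h5
    unfold FA at hA
    linear_combination hA

end Field

theorem small_ne {q : ℕ} [Fact q.Prime] (hq1 : 1000 < q) (p : ℕ) (hp : 0 < p) (hp1 : p < 1000) :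
    ((p : ℕ) : ZMod q) ≠ 0 := by
  intro h
  rw [ZMod.natCast_eq_zero_iff] at h
  have := Nat.le_of_dvd hp h
  omega

theorem lead_ne {q : ℕ} [Fact q.Prime] (hq1 : 1000 < q) :
    (1496906427515625 : ZMod q) ≠ 0 := by
  have h3 := small_ne (q := q) hq1 3 (by norm_num) (by norm_num)
  have h5 := small_ne (q := q) hq1 5 (by norm_num) (by norm_num)
  have h7 := small_ne (q := q) hq1 7 (by norm_num) (by norm_num)
  have h17 := small_ne (q := q) hq1 17 (by norm_num) (by norm_num)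
  have h : ((3 : ℕ) : ZMod q) ^ 4 * ((5 : ℕ) : ZMod q) ^ 6 * ((7 : ℕ) : ZMod q) ^ 2 *
      ((17 : ℕ) : ZMod q) ^ 6 ≠ 0 :=
    mul_ne_zero (mul_ne_zero (mul_ne_zero (pow_ne_zero _ h3) (pow_ne_zero _ h5))
      (pow_ne_zero _ h7)) (pow_ne_zero _ h17)
  intro h0
  apply h
  rw [← h0]
  push_cast
  norm_num

end S46

open Classical in
theorem st_SVS : ST_SVS := by
  intro N q hq hq1
  haveI : Fact q.Prime := ⟨hq⟩
  have hM : ((MM : ℤ) : ZMod q) ≠ 0 := by
    intro h
    have h1 := (ZMod.intCast_zmod_eq_zero_iff_dvd _ _).1 h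
    unfold MM at h1
    have h2 : q ∣ Nat.factorial 1000 := by exact_mod_cast h1
    rw [hq.dvd_factorial] at h2
    omega
  have hl := S46.lead_ne (q := q) hq1
  have h541 : (541 : ZMod q) ≠ 0 := by
    have h := S46.small_ne (q := q) hq1 541 (by norm_num) (by norm_num)
    exact_mod_cast h
  -- the residue of a parameter
  set res : Fin 3 → ℕ → ZMod q := fun i t => ((sb i + MM * (t : ℤ) : ℤ) : ZMod q) with hres
  have hyy : ∀ (t : Fin 3 → ℕ) (i : Fin 3), ((yy sb t i : ℤ) : ZMod q) = res i (t i) := by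
    intro t i
    rfl
  set P : (Fin 3 → ℕ) → Prop := fun t => (q : ℤ) ∣ sA (yy sb t) ∧ (q : ℤ) ∣ sB (yy sb t) with hP
  have hAB : ∀ t, P t →
      FA (res 0 (t 0)) (res 1 (t 1)) (res 2 (t 2)) = 0 ∧
      FB (res 0 (t 0)) (res 1 (t 1)) (res 2 (t 2)) = 0 := by
    intro t ht
    obtain ⟨h1, h2⟩ := ht
    have hv := S46.vals (S46.cong_yy sb t)
    obtain ⟨v1, v2, -⟩ := hv
    have h1' : (q : ℤ) ∣ FA (yy sb t 0) (yy sb t 1) (yy sb t 2) := by
      have : FA (yy sb t 0) (yy sb t 1) (yy sb t 2) = -3 * sA (yy sb t) := by linarith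
      rw [this]
      exact Dvd.dvd.mul_left h1 _
    have h2' : (q : ℤ) ∣ FB (yy sb t 0) (yy sb t 1) (yy sb t 2) := by
      rw [← v2]
      exact Dvd.dvd.mul_left h2 _
    have h1'' := (ZMod.intCast_zmod_eq_zero_iff_dvd _ _).2 h1'
    have h2'' := (ZMod.intCast_zmod_eq_zero_iff_dvd _ _).2 h2'
    unfold FA at h1''
    unfold FB at h2''
    push_cast at h1'' h2''
    rw [hyy, hyy, hyy] at h1'' h2''
    unfold FA FB
    exact ⟨h1'', h2''⟩
  set A : ℕ → Finset ℕ := fun z => (Finset.range N).filter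
    (fun t : ℕ => ((sb 0 + MM * (t : ℤ) : ℤ) : ZMod q) ∈ S46.Sa (res 2 z)) with hA
  set B : ℕ → ℕ → Finset ℕ := fun z x => (Finset.range N).filter
    (fun t : ℕ => ((sb 1 + MM * (t : ℤ) : ℤ) : ZMod q) ∈ S46.Sb (res 2 z) (res 0 x)) with hB
  set U : Finset (Σ _ : ℕ, Σ _ : ℕ, ℕ) :=
    (Finset.range N).sigma (fun z => (A z).sigma (fun x => B z x)) with hU
  have hAc : ∀ z, (A z).card ≤ 12 * (N / q + 1) := fun z =>
    (SVK.cls_card q N _ _ hM _).trans (Nat.mul_le_mul_right _ (S46.Sa_card _))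
  have hBc : ∀ z x, (B z x).card ≤ 4 * (N / q + 1) := fun z x =>
    (SVK.cls_card q N _ _ hM _).trans (Nat.mul_le_mul_right _ (S46.Sb_card _ _))
  have hUc : U.card ≤ 48 * (N / q + 1) ^ 2 * N := by
    rw [hU, Finset.card_sigma]
    have h1 : ∀ z ∈ Finset.range N,
        ((A z).sigma (fun x => B z x)).card ≤ 48 * (N / q + 1) ^ 2 := by
      intro z _
      rw [Finset.card_sigma]
      refine (Finset.sum_le_card_nsmul _ _ (4 * (N / q + 1)) fun x _ => hBc z x).trans ?_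
      rw [smul_eq_mul]
      refine (Nat.mul_le_mul_right _ (hAc z)).trans (le_of_eq ?_)
      ring
    refine (Finset.sum_le_card_nsmul _ _ _ h1).trans (le_of_eq ?_)
    rw [smul_eq_mul, Finset.card_range]
    ring
  have hmain : ((Box N).filter P).card ≤ U.card := by
    apply Finset.card_le_card_of_injOn
      (fun t : Fin 3 → ℕ => (⟨t 2, ⟨t 0, t 1⟩⟩ : Σ _ : ℕ, Σ _ : ℕ, ℕ))
    · intro t ht
      rw [Finset.coe_filter] at ht
      obtain ⟨ht1, ht2⟩ := ht
      unfold Box at ht1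
      rw [Fintype.mem_piFinset] at ht1
      obtain ⟨h1, h2⟩ := hAB t ht2
      obtain ⟨m1, m2⟩ := S46.smain hl h541 _ _ _ h1 h2
      show (⟨t 2, ⟨t 0, t 1⟩⟩ : Σ _ : ℕ, Σ _ : ℕ, ℕ) ∈ (U : Set _)
      rw [Finset.mem_coe, hU, Finset.mem_sigma]
      refine ⟨ht1 2, ?_⟩
      rw [Finset.mem_sigma]
      exact ⟨Finset.mem_filter.2 ⟨ht1 0, m1⟩, Finset.mem_filter.2 ⟨ht1 1, m2⟩⟩
    · intro t _ t' _ he
      simp only [Sigma.mk.injEq, heq_eq_eq] at he
      obtain ⟨h2, h0, h1⟩ := he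
      funext i
      fin_cases i
      · exact h0
      · exact h1
      · exact h2
  calc ((Box N).filter P).card ≤ U.card := hmain
    _ ≤ 48 * (N / q + 1) ^ 2 * N := hUc
    _ = 48 * ((N / q + 1) ^ 2 * N) := by ring
    _ ≤ 50 * ((N / q + 1) ^ 2 * N) := Nat.mul_le_mul_right _ (by norm_num)
    _ = 50 * (N / q + 1) ^ 2 * N := by ring

end Pool.Helper17.RS
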